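import Pool.Agent.H67.AG.T1

/-!
CV: convolutions with admissible functions are almost periodic.
-/

set_option autoImplicit false

open MeasureTheory ProbabilityTheory Filter Topology Finset
open scoped Nat ENNReal

namespace Pool.Agent.H98.AG

open Pool.Agent.H67.AG

/-- small strips -/
theorem cv_strip {X : Type} [MeasurableSpace X] (μ : Measure X) [IsProbabilityMeasure μ]
    (c : X → ℝ) (hc : Measurable c) (r δ : ℝ) (hδ : 0 < δ) :
    ∃ s : ℝ, 0 < s ∧ μ.real {x | r - s ≤ c x ∧ c x < r} ≤ δ := by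
  have hm : ∀ n : ℕ, MeasurableSet {x | r - 1 / ((n : ℝ) + 1) ≤ c x ∧ c x < r} := fun n =>
    (measurableSet_le measurable_const hc).inter (measurableSet_lt hc measurable_const)
  have hanti : Antitone fun n : ℕ => {x | r - 1 / ((n : ℝ) + 1) ≤ c x ∧ c x < r} := by
    intro m n hmn x hx
    refine ⟨?_, hx.2⟩
    have h1 : (1 : ℝ) / ((n : ℝ) + 1) ≤ 1 / ((m : ℝ) + 1) := by
      apply one_div_le_one_div_of_le
      · positivity
      · have : (m : ℝ) ≤ n := by exact_mod_cast hmn
        linarith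
    have := hx.1
    linarith
  have hinter : ⋂ n : ℕ, {x | r - 1 / ((n : ℝ) + 1) ≤ c x ∧ c x < r} = ∅ := by
    rw [Set.eq_empty_iff_forall_notMem]
    intro x hx
    rw [Set.mem_iInter] at hx
    have h0 : 0 < r - c x := by
      have := (hx 0).2
      linarith
    obtain ⟨n, hn⟩ := exists_nat_one_div_lt h0
    have := (hx n).1
    linarith
  have ht := tendsto_measure_iInter_atTop (μ := μ)
    (s := fun n : ℕ => {x | r - 1 / ((n : ℝ) + 1) ≤ c x ∧ c x < r})
    (fun n => (hm n).nullMeasurableSet) hanti ⟨0, measure_ne_top _ _⟩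
  rw [hinter, measure_empty] at ht
  have ht' : Tendsto (fun n : ℕ => μ.real {x | r - 1 / ((n : ℝ) + 1) ≤ c x ∧ c x < r}) atTop
      (𝓝 0) := by
    have := (ENNReal.tendsto_toReal (ENNReal.zero_ne_top)).comp ht
    rw [ENNReal.toReal_zero] at this
    exact this
  obtain ⟨n, hn⟩ := (ht'.eventually (gt_mem_nhds hδ)).exists
  exact ⟨1 / ((n : ℝ) + 1), by positivity, hn.le⟩

theorem pf_CV (_h : T_NXA) (hq : T_QM) (h4 : T_J4) (hj : T_J2) : T_CV := by
  intro X _ _ μ _ T Z W H g hT hZ hW hH hg hg1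
  obtain ⟨hHm, hH1, hHT⟩ := hH
  have hF : Measurable fun p : X × X => H p * g p.2 := hHm.mul (hg.comp measurable_snd)
  have hcm : Measurable (conv μ Z H g) := by
    have := hF.stronglyMeasurable.integral_kernel_prod_right' (κ := kap μ Z)
    exact this.measurable
  have hb : ∀ x y, |H (x, y) * g y| ≤ 1 := by
    intro x y
    rw [abs_mul]
    calc |H (x, y)| * |g y| ≤ 1 * 1 :=
          mul_le_mul (hH1 _) (hg1 y) (abs_nonneg _) zero_le_one
      _ = 1 := one_mul 1
  have hc1 : ∀ x, |conv μ Z H g x| ≤ 1 := by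
    intro x
    have := norm_integral_le_of_norm_le_const (μ := kap μ Z x)
      (f := fun y => H (x, y) * g y) (C := 1) (ae_of_all _ fun y => by
        rw [Real.norm_eq_abs]; exact hb x y)
    simpa [conv] using this
  refine ⟨conv μ Z H g, ?_, hc1, ae_eq_refl _⟩
  set c := conv μ Z H g with hcdef
  obtain ⟨hJp, hJ1, hJ2, -⟩ := hj X μ Z
  have hfib := (h4 X μ Z).1
  obtain ⟨hq1, hq2⟩ := hq X μ T Z hT hZ
  -- the difference of the values of the convolution
  have hdiff : ∀ q : X × X, kap μ Z q.1 = kap μ Z q.2 →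
      (c q.1 - c q.2) ^ 2 ≤ Gb μ Z T 1 W (fun _ => H) q := by
    intro q hk
    have hi : ∀ x, Integrable (fun y => H (x, y) * g y) (kap μ Z q.1) := by
      intro x
      refine Integrable.of_bound
        ((hHm.comp measurable_prodMk_left).mul hg).aestronglyMeasurable 1
        (ae_of_all _ fun y => ?_)
      rw [Real.norm_eq_abs]; exact hb x y
    have e1 : c q.1 - c q.2 = ∫ y, (H (q.1, y) - H (q.2, y)) * g y ∂(kap μ Z q.1) := by
      have : c q.2 = ∫ y, H (q.2, y) * g y ∂(kap μ Z q.1) := by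
        rw [hk]; rfl
      rw [this]
      change (∫ y, H (q.1, y) * g y ∂(kap μ Z q.1)) - _ = _
      rw [← integral_sub (hi _) (hi _)]
      refine integral_congr_ae (ae_of_all _ fun y => ?_)
      simp only
      ring
    have hDm : Measurable fun y => (H (q.1, y) - H (q.2, y)) * g y :=
      ((hHm.comp measurable_prodMk_left).sub (hHm.comp measurable_prodMk_left)).mul hg
    have hDb : ∀ y, |(H (q.1, y) - H (q.2, y)) * g y| ≤ 2 := by
      intro y
      rw [sub_mul]
      have a := hb q.1 y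
      have b := hb q.2 y
      rw [abs_le] at a b ⊢
      constructor <;> linarith [a.1, a.2, b.1, b.2]
    have hDi : Integrable (fun y => (H (q.1, y) - H (q.2, y)) * g y) (kap μ Z q.1) :=
      Integrable.of_bound hDm.aestronglyMeasurable 2
        (ae_of_all _ fun y => by rw [Real.norm_eq_abs]; exact hDb y)
    have hDi2 : Integrable (fun y => ((H (q.1, y) - H (q.2, y)) * g y) ^ 2) (kap μ Z q.1) := by
      refine Integrable.of_bound (hDm.pow_const 2).aestronglyMeasurable 4
        (ae_of_all _ fun y => ?_)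
      rw [Real.norm_eq_abs, abs_pow]
      have := hDb y
      have h0 := abs_nonneg ((H (q.1, y) - H (q.2, y)) * g y)
      nlinarith
    have hSm : Measurable fun y => (H (q.1, y) - H (q.2, y)) ^ 2 :=
      ((hHm.comp measurable_prodMk_left).sub (hHm.comp measurable_prodMk_left)).pow_const 2
    have hSi : Integrable (fun y => (H (q.1, y) - H (q.2, y)) ^ 2) (kap μ Z q.1) := by
      refine Integrable.of_bound hSm.aestronglyMeasurable 4 (ae_of_all _ fun y => ?_)
      rw [Real.norm_eq_abs, abs_pow]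
      have a := hH1 (q.1, y)
      have b := hH1 (q.2, y)
      have : |H (q.1, y) - H (q.2, y)| ≤ 2 := by
        rw [abs_le] at a b ⊢
        constructor <;> linarith [a.1, a.2, b.1, b.2]
      have h0 := abs_nonneg (H (q.1, y) - H (q.2, y))
      nlinarith
    -- variance is nonnegative
    have hvar : (∫ y, (H (q.1, y) - H (q.2, y)) * g y ∂(kap μ Z q.1)) ^ 2 ≤
        ∫ y, ((H (q.1, y) - H (q.2, y)) * g y) ^ 2 ∂(kap μ Z q.1) := by
      set I := ∫ y, (H (q.1, y) - H (q.2, y)) * g y ∂(kap μ Z q.1) with hI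
      have h0 : 0 ≤ ∫ y, ((H (q.1, y) - H (q.2, y)) * g y - I) ^ 2 ∂(kap μ Z q.1) :=
        integral_nonneg fun y => sq_nonneg _
      have h1 : ∫ y, ((H (q.1, y) - H (q.2, y)) * g y - I) ^ 2 ∂(kap μ Z q.1) =
          (∫ y, ((H (q.1, y) - H (q.2, y)) * g y) ^ 2 ∂(kap μ Z q.1)) - I ^ 2 := by
        have e : ∀ y, ((H (q.1, y) - H (q.2, y)) * g y - I) ^ 2 =
            (((H (q.1, y) - H (q.2, y)) * g y) ^ 2 -
              (2 * I) * ((H (q.1, y) - H (q.2, y)) * g y)) + I ^ 2 := fun y => by ring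
        simp_rw [e]
        have s1 : ∫ y, ((((H (q.1, y) - H (q.2, y)) * g y) ^ 2 -
              (2 * I) * ((H (q.1, y) - H (q.2, y)) * g y)) + I ^ 2) ∂(kap μ Z q.1) =
            (∫ y, (((H (q.1, y) - H (q.2, y)) * g y) ^ 2 -
              (2 * I) * ((H (q.1, y) - H (q.2, y)) * g y)) ∂(kap μ Z q.1)) +
            ∫ _y, I ^ 2 ∂(kap μ Z q.1) :=
          integral_add (hDi2.sub (hDi.const_mul (2 * I))) (integrable_const _)
        have s2 : ∫ y, (((H (q.1, y) - H (q.2, y)) * g y) ^ 2 -
              (2 * I) * ((H (q.1, y) - H (q.2, y)) * g y)) ∂(kap μ Z q.1) =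
            (∫ y, ((H (q.1, y) - H (q.2, y)) * g y) ^ 2 ∂(kap μ Z q.1)) -
            ∫ y, (2 * I) * ((H (q.1, y) - H (q.2, y)) * g y) ∂(kap μ Z q.1) :=
          integral_sub hDi2 (hDi.const_mul (2 * I))
        rw [s1, s2, integral_const_mul, ← hI, integral_const]
        simp
        ring
      linarith
    have hle : ∫ y, ((H (q.1, y) - H (q.2, y)) * g y) ^ 2 ∂(kap μ Z q.1) ≤
        ∫ y, (H (q.1, y) - H (q.2, y)) ^ 2 ∂(kap μ Z q.1) := by
      refine integral_mono hDi2 hSi fun y => ?_
      have h2 : (g y) ^ 2 ≤ 1 := by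
        rw [← sq_abs]
        have := hg1 y
        have h0 := abs_nonneg (g y)
        nlinarith
      have h3 : 0 ≤ (H (q.1, y) - H (q.2, y)) ^ 2 := sq_nonneg _
      change ((H (q.1, y) - H (q.2, y)) * g y) ^ 2 ≤ (H (q.1, y) - H (q.2, y)) ^ 2
      rw [mul_pow]
      nlinarith
    have hGb : ∫ y, (H (q.1, y) - H (q.2, y)) ^ 2 ∂(kap μ Z q.1) ≤
        Gb μ Z T 1 W (fun _ => H) q := by
      unfold Gb
      rw [Fin.sum_univ_one]
      have := Finset.single_le_sum (s := range W)
        (f := fun t => ∫ y, (H (T^[t] q.1, T^[t] y) - H (T^[t] q.2, T^[t] y)) ^ 2 ∂(kap μ Z q.1))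
        (fun t _ => integral_nonneg fun y => sq_nonneg _) (Finset.mem_range.2 hW)
      simpa using this
    rw [e1]
    exact hvar.trans (hle.trans hGb)
  -- the sets are almost periodic
  have hNX : ∀ r : ℝ, NX μ T Z {x | c x < r} := by
    intro r
    refine ⟨measurableSet_lt hcm measurable_const, fun δ hδ => ?_⟩
    obtain ⟨s, hs, hsB⟩ := cv_strip μ c hcm r (δ / 2) (by positivity)
    refine ⟨1, W, fun _ => H, s ^ 2, hW, fun _ => ⟨hHm, hH1, hHT⟩, by positivity, ?_⟩
    intro E hE hTE hG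
    set J := JJ μ Z with hJ
    have : IsProbabilityMeasure J := hJp
    set B : Set X := {x | r - s ≤ c x ∧ c x < r} with hB
    have hBm : MeasurableSet B :=
      (measurableSet_le measurable_const hcm).inter (measurableSet_lt hcm measurable_const)
    rcases (measureReal_nonneg (μ := J) (s := E)).eq_or_lt with h0 | hpos
    · have : J.real (E ∩ {q | ¬ (q.1 ∈ {x | c x < r} ↔ q.2 ∈ {x | c x < r})}) ≤ J.real E :=
        measureReal_mono Set.inter_subset_left
      rw [← h0] at this ⊢
      simpa using this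
    · obtain ⟨hRp, hRT, hRJ⟩ := hq2 E hE hTE hpos
      obtain ⟨hm1, hm2⟩ := hq1 _ hRp hRT hRJ
      have key1 : J.real (E ∩ {q | q.1 ∈ B}) = J.real E * μ.real B := by
        have e1 : (J[|E]) (Prod.fst ⁻¹' B) = μ B := hm1.measure_preimage hBm.nullMeasurableSet
        rw [cond_apply hE] at e1
        have e2 : J E ≠ 0 := by
          intro hz
          rw [Measure.real, hz] at hpos
          simp at hpos
        have e3 : J (E ∩ Prod.fst ⁻¹' B) = J E * μ B := by
          rw [← e1, ← mul_assoc, ENNReal.mul_inv_cancel e2 (measure_ne_top _ _), one_mul]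
        have e4 : E ∩ {q | q.1 ∈ B} = E ∩ Prod.fst ⁻¹' B := rfl
        rw [e4, Measure.real, e3, ENNReal.toReal_mul]
        rfl
      have key2 : J.real (E ∩ {q | q.2 ∈ B}) = J.real E * μ.real B := by
        have e1 : (J[|E]) (Prod.snd ⁻¹' B) = μ B := hm2.measure_preimage hBm.nullMeasurableSet
        rw [cond_apply hE] at e1
        have e2 : J E ≠ 0 := by
          intro hz
          rw [Measure.real, hz] at hpos
          simp at hpos
        have e3 : J (E ∩ Prod.snd ⁻¹' B) = J E * μ B := by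
          rw [← e1, ← mul_assoc, ENNReal.mul_inv_cancel e2 (measure_ne_top _ _), one_mul]
        have e4 : E ∩ {q | q.2 ∈ B} = E ∩ Prod.snd ⁻¹' B := rfl
        rw [e4, Measure.real, e3, ENNReal.toReal_mul]
        rfl
      have hae : ∀ᵐ q ∂J, q ∈ E ∩ {q | ¬ (q.1 ∈ {x | c x < r} ↔ q.2 ∈ {x | c x < r})} →
          q ∈ (E ∩ {q | q.1 ∈ B}) ∪ (E ∩ {q | q.2 ∈ B}) := by
        filter_upwards [hfib, hG] with q hq1' hq2' hqE
        obtain ⟨hqE, hne⟩ := hqE
        have hd := (hdiff q hq1').trans (hq2' hqE)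
        have hd' : |c q.1 - c q.2| ≤ s := abs_le_of_sq_le_sq hd hs.le
        rw [abs_le] at hd'
        simp only [Set.mem_ofPred_eq] at hne
        by_cases ha : c q.1 < r
        · have hb' : ¬ c q.2 < r := fun hb' => hne ⟨fun _ => hb', fun _ => ha⟩
          left
          refine ⟨hqE, ?_, ha⟩
          linarith [hd'.1]
        · have hb' : c q.2 < r := by
            by_contra hb'
            exact hne ⟨fun h => absurd h ha, fun h => absurd h hb'⟩
          right
          refine ⟨hqE, ?_, hb'⟩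
          linarith [hd'.2]
      have hle : J.real (E ∩ {q | ¬ (q.1 ∈ {x | c x < r} ↔ q.2 ∈ {x | c x < r})}) ≤
          J.real ((E ∩ {q | q.1 ∈ B}) ∪ (E ∩ {q | q.2 ∈ B})) := by
        unfold Measure.real
        exact ENNReal.toReal_mono (measure_ne_top _ _) (measure_mono_ae hae)
      calc J.real (E ∩ {q | ¬ (q.1 ∈ {x | c x < r} ↔ q.2 ∈ {x | c x < r})})
          ≤ J.real ((E ∩ {q | q.1 ∈ B}) ∪ (E ∩ {q | q.2 ∈ B})) := hle
        _ ≤ J.real (E ∩ {q | q.1 ∈ B}) + J.real (E ∩ {q | q.2 ∈ B}) :=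
            measureReal_union_le _ _
        _ = 2 * (J.real E * μ.real B) := by rw [key1, key2]; ring
        _ ≤ 2 * (J.real E * (δ / 2)) := by
            have := mul_le_mul_of_nonneg_left hsB (measureReal_nonneg (μ := J) (s := E))
            linarith
        _ = δ * J.real E := by ring
  refine measurable_of_Iio fun r => ?_
  exact MeasurableSpace.measurableSet_generateFrom (hNX r)

end Pool.Agent.H98.AG
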