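import Pool.Agent.H38.AG.Targets

/-!
# ENP: energy of a pattern modulo `S`-units
-/

set_option autoImplicit false

open Pool.Agent.H38.RB Pool.Agent.H38.PS Pool.Agent.H82.RD Pool.Agent.H38.AB Pool.Agent.H38.AG

namespace Pool.Agent.H98.AG

/-- the number of factors -/
private theorem ceil_facts (S s : ℕ) (hs : 1 ≤ s) (hS : s ≤ S) :
    S ≤ s * ((S + s - 1) / s) ∧ 1 ≤ (S + s - 1) / s ∧ (S + s - 1) / s ≤ S ∧
      s * ((S + s - 1) / s) ≤ 2 * S := by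
  have h1 : s * ((S + s - 1) / s) ≤ S + s - 1 := Nat.mul_div_le _ _
  have h2 : S + s - 1 < s * ((S + s - 1) / s) + s := by
    have := Nat.lt_mul_div_succ (S + s - 1) (by omega : 0 < s)
    rwa [mul_add, mul_one] at this
  refine ⟨by omega, ?_, ?_, by omega⟩
  · rw [Nat.le_div_iff_mul_le (by omega)]
    omega
  · apply Nat.div_le_of_le_mul
    obtain ⟨a, rfl⟩ : ∃ a, s = a + 1 := ⟨s - 1, by omega⟩
    obtain ⟨b, rfl⟩ : ∃ b, S = b + 1 := ⟨S - 1, by omega⟩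
    have h3 : b + 1 + (a + 1) - 1 = a + b + 1 := by omega
    rw [h3]
    have h4 : (a + 1) * (b + 1) = a * b + (a + b + 1) := by ring
    rw [h4]
    exact Nat.le_add_left _ _

theorem pf_ENP (hEGW : T_EGW) (hEN1 : T_EN1) (hECM : T_ECM) (hBOX : T_BOX) : T_ENP := by
  intro γ hγ
  obtain ⟨K, ρ₁, X₁, hK, hρ₁, hX₁, hE⟩ := hECM γ hγ
  refine ⟨K, min (ρ₁ / 3) 1, X₁, hK, lt_min (by positivity) one_pos, hX₁, ?_⟩
  intro X q e V k _ v s S f hX hq hqX he hS hSc hj h2 hV hf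
  obtain ⟨ρ, hρdef⟩ : ∃ ρ, ρ = min (ρ₁ / 3) 1 := ⟨_, rfl⟩
  rw [← hρdef] at hSc hj
  have hρ0 : 0 < ρ := by rw [hρdef]; exact lt_min (by positivity) one_pos
  have hρ1 : ρ ≤ 1 := by rw [hρdef]; exact min_le_right _ _
  have hρρ : ρ ≤ ρ₁ / 3 := by rw [hρdef]; exact min_le_left _ _
  have hX2 : 2 ≤ X := hX₁.trans hX
  have hX0 : 0 < X := by linarith
  have hX1 : 1 ≤ X := by linarith
  have hlog : 0 < Real.log X := Real.log_pos (by linarith)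
  have he1 : 1 ≤ e := by
    have h1 : 0 < Real.log X ^ K := Real.rpow_pos_of_pos hlog K
    have h2 : (0 : ℝ) < (e : ℝ) := h1.trans_le he
    exact_mod_cast h2
  obtain ⟨S₀, hS₀⟩ : ∃ S₀ : ℕ, S₀ = ∑ j, s j := ⟨_, rfl⟩
  rw [← hS₀] at h2 ⊢
  -- the size of `S₀`
  have hS₀X : (S₀ : ℝ) ≤ 3 / 2 * Real.log X := by
    have h3 := Real.log_le_log (by positivity) h2
    rw [Real.log_pow] at h3
    have h4 := Real.log_two_gt_d9
    have h5 : (0 : ℝ) ≤ (S₀ : ℝ) := Nat.cast_nonneg _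
    nlinarith [mul_nonneg h5 (by linarith : (0 : ℝ) ≤ Real.log 2 - 2 / 3)]
  have hs1 : ∀ j, 1 ≤ s j := by
    intro j
    have h3 := (hj j).2.2
    have h4 : (1 : ℝ) ≤ 1 / ρ := by
      rw [le_div_iff₀ hρ0]
      linarith
    have h5 : (1 : ℝ) ≤ (s j : ℝ) := h4.trans h3
    exact_mod_cast h5
  have hsS : ∀ j, s j ≤ S₀ := by
    intro j
    rw [hS₀]
    exact Finset.single_le_sum (f := s) (fun _ _ => Nat.zero_le _) (Finset.mem_univ j)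
  obtain ⟨n, hn⟩ : ∃ n : Fin k → ℕ, ∀ j, n j = (S₀ + s j - 1) / s j := ⟨_, fun _ => rfl⟩
  have hn' : ∀ j, S₀ ≤ s j * n j ∧ 1 ≤ n j ∧ n j ≤ S₀ ∧ s j * n j ≤ 2 * S₀ := by
    intro j
    rw [hn j]
    exact ceil_facts S₀ (s j) (hs1 j) (hsS j)
  have hne : (Hb (q ^ e) S V).Nonempty :=
    ⟨1, (hBOX (q ^ e) V S fun u hu => (hS u hu).pow_right e).1⟩
  have hτ : (1 : ℝ) ≤ X ^ γ := Real.one_le_rpow hX1 hγ.le
  refine hEGW (ZMod (q ^ e))ˣ k S₀ (fun j => Dy q (s j)) f s n (X ^ γ) (Hb (q ^ e) S V) hne hτ hs1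
    hS₀ (fun j => ⟨(hn' j).1, (hn' j).2.1, (hn' j).2.2.1⟩) fun j => ?_
  refine hEN1 q e (s j) (n j) (v j) V S (X ^ γ) (f j) hq he1 (hj j).1 (by linarith) hS (hf j) ?_
  intro P hP hPP
  refine hE X q e (v j) (4 * V) (n j) S P hX hq hqX he (hj j).1 ?_ ?_ hS ?_ ?_ ?_ hPP
  · have := (hj j).2.1
    omega
  · push_cast
    have h3 : (4 : ℝ) ≤ X ^ 6 := by
      calc (4 : ℝ) ≤ 2 ^ 6 := by norm_num
        _ ≤ X ^ 6 := by gcongr
    calc 4 * (V : ℝ) ≤ X ^ 6 * X ^ 64 := by gcongr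
      _ = X ^ 70 := by ring
  · refine hSc.trans ?_
    gcongr
    linarith
  · -- the number of factors
    have h3 : (s j : ℝ) * (n j : ℝ) ≤ 2 * (S₀ : ℝ) := by exact_mod_cast (hn' j).2.2.2
    have h4 : 1 ≤ ρ * (s j : ℝ) := by
      have := (hj j).2.2
      rw [div_le_iff₀ hρ0] at this
      linarith
    have h5 : (0 : ℝ) ≤ (n j : ℝ) := Nat.cast_nonneg _
    calc (n j : ℝ) ≤ (ρ * (s j : ℝ)) * (n j : ℝ) := by nlinarith
      _ = ρ * ((s j : ℝ) * (n j : ℝ)) := by ring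
      _ ≤ ρ * (2 * (S₀ : ℝ)) := by gcongr
      _ ≤ ρ * (2 * (3 / 2 * Real.log X)) := by gcongr
      _ = 3 * ρ * Real.log X := by ring
      _ ≤ ρ₁ * Real.log X := by
        have h6 : 3 * ρ ≤ ρ₁ := by linarith
        gcongr
  · intro p hp
    obtain ⟨p1, p2, p3, p4⟩ := hP p hp
    refine ⟨p1, ?_, p3, p4⟩
    have h3 : (s j + 1) * n j ≤ 4 * S₀ := by
      have h4 := (hn' j).2.2.2
      have h5 : n j ≤ s j * n j := Nat.le_mul_of_pos_left _ (hs1 j)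
      rw [add_mul, one_mul]
      omega
    calc (p : ℝ) ≤ ((2 ^ ((s j + 1) * n j) : ℕ) : ℝ) := by exact_mod_cast p2
      _ = (2 : ℝ) ^ ((s j + 1) * n j) := by push_cast; ring
      _ ≤ (2 : ℝ) ^ (4 * S₀) := pow_le_pow_right₀ (by norm_num) h3
      _ = ((2 : ℝ) ^ S₀) ^ 4 := by rw [mul_comm, pow_mul]
      _ ≤ X ^ 4 := by gcongr
      _ ≤ X ^ 10 := pow_le_pow_right₀ hX1 (by norm_num)

end Pool.Agent.H98.AG
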